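import Pool.Agent.N455.TX.Seq
import Pool.Agent.N455.HT.Equi
import Pool.Agent.N666.TM.Diag

/-!
# Countably many null sets, countability of the data, equidistributed sequences
-/

set_option autoImplicit false
set_option linter.unusedSectionVars false

namespace Pool.Agent.N680.SQ

open NumberField Filter Topology Finset
open Pool.Agent.N666.TM Pool.Agent.N455.HT

/-- countably many null sets are contained in one null set up to finitely many elements -/
theorem one_set {T : Type} [Countable T] {S₁ S₂ : ℕ → Finset ℕ}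
    (hS₁ : ∀ N, S₁ N ⊆ Ioc N (2 * N)) (hS₂ : ∀ N, S₂ N ⊆ Ioc N (2 * N)) (E : T → Set ℕ)
    (h₁ : ∀ τ, Pool.Agent.N666.TM.NullIn S₁ (E τ)) (h₂ : ∀ τ, Pool.Agent.N666.TM.NullIn S₂ (E τ)) :
    ∃ E' : Set ℕ, Pool.Agent.N666.TM.NullIn S₁ E' ∧ Pool.Agent.N666.TM.NullIn S₂ E' ∧
      ∀ τ, (E τ \ E').Finite := by
  classical
  obtain ⟨f, hf⟩ := exists_injective_nat T
  have hfin : ∀ K : ℕ, {τ : T | f τ ≤ K}.Finite := fun K =>
    (Set.finite_Iic K).preimage hf.injOn
  obtain ⟨E', a1, a2, a3⟩ := diag (E := fun K => ⋃ τ ∈ (hfin K).toFinset, E τ) (by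
      intro K K' hK
      refine Set.biUnion_subset_biUnion_left ?_
      intro τ hτ
      rw [Finset.mem_coe, Set.Finite.mem_toFinset] at hτ ⊢
      exact le_trans hτ hK) hS₁ hS₂
    (fun K => NullIn.biUnion' _ _ fun τ _ => h₁ τ) (fun K => NullIn.biUnion' _ _ fun τ _ => h₂ τ)
  refine ⟨E', a1, a2, fun τ => (a3 (f τ)).subset ?_⟩
  rintro n ⟨hn, hn'⟩
  refine ⟨?_, hn'⟩
  rw [Set.mem_iUnion₂]
  exact ⟨τ, (hfin (f τ)).mem_toFinset.2 (by simp), hn⟩

theorem countable_nf (k : Type) [Field k] [NumberField k] : Countable k :=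
  (Module.finBasis ℚ k).equivFun.toEquiv.countable_iff.2 inferInstance

theorem countable_pol (k : Type) [Field k] [NumberField k] (m : ℕ) :
    Countable (Polynomial (MvPolynomial (Fin m) k)) := by
  have h0 := countable_nf k
  have h1 : Countable (MvPolynomial (Fin m) k) := by
    rw [← Cardinal.mk_le_aleph0_iff]
    refine (MvPolynomial.cardinalMk_le_max).trans ?_
    refine max_le (max_le ?_ ?_) le_rfl
    · exact Cardinal.mk_le_aleph0_iff.2 h0
    · exact Cardinal.mk_le_aleph0_iff.2 inferInstance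
  rw [← Cardinal.mk_le_aleph0_iff]
  refine (Polynomial.cardinalMk_le_max).trans ?_
  exact max_le (Cardinal.mk_le_aleph0_iff.2 h1) le_rfl

theorem countable_basis (k : Type) [Field k] [NumberField k] (r : ℕ) :
    Countable (Module.Basis (Fin r) ℤ (𝓞 k)) := by
  have h0 := countable_nf k
  have h1 : Countable (𝓞 k) := (RingOfIntegers.coe_injective).countable
  exact (DFunLike.coe_injective (F := Module.Basis (Fin r) ℤ (𝓞 k))).countable

/-- The integral sequences `x n`, `n ∈ S N`, `N → ∞`, are equidistributed modulo all integers, in all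
finite sets of coordinates. -/
def EquiAll (S : ℕ → Finset ℕ) (x : ℕ → ℕ → ℤ) : Prop :=
  ∀ R q : ℕ, 1 ≤ q → ∀ c : Fin R → ℤ,
    Tendsto (fun N : ℕ => ({n : ℕ | n ∈ S N ∧ ∀ i : Fin R, x n i ≡ c i [ZMOD q]}.ncard : ℝ) /
      (S N).card) atTop (𝓝 (1 / (q : ℝ) ^ R))

theorem ws_of {S : ℕ → Finset ℕ} {x : ℕ → ℕ → ℤ} (h : EquiAll S x) (m r : ℕ) :
    WS S (fun n (lj : Fin (m + 1) × Fin r) => x n (r * lj.1 + lj.2)) := by
  refine WS.of_equi ?_
  intro q hq c
  have h1 := h ((m + 1) * r) q hq (fun i => c (finProdFinEquiv.symm i))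
  have h2 : ∀ N, {n : ℕ | n ∈ S N ∧ ∀ i : Fin ((m + 1) * r),
      x n i ≡ c (finProdFinEquiv.symm i) [ZMOD q]} =
      {n : ℕ | n ∈ S N ∧ ∀ i : Fin (m + 1) × Fin r, x n (r * i.1 + i.2) ≡ c i [ZMOD q]} := by
    intro N
    ext n
    simp only [Set.mem_ofPred_eq]
    refine and_congr_right fun _ => ?_
    constructor
    · intro h3 i
      have h4 := h3 (finProdFinEquiv i)
      rw [Equiv.symm_apply_apply, finProdFinEquiv_apply_val, add_comm] at h4
      exact h4
    · intro h3 i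
      have h4 := h3 (finProdFinEquiv.symm i)
      have h5 : (i : ℕ) = r * (finProdFinEquiv.symm i).1 + (finProdFinEquiv.symm i).2 := by
        conv_lhs => rw [← finProdFinEquiv.apply_symm_apply i]
        rw [finProdFinEquiv_apply_val, add_comm]
      rw [h5]
      exact h4
  simp only [h2] at h1
  have h3 : Fintype.card (Fin (m + 1) × Fin r) = (m + 1) * r := by
    rw [Fintype.card_prod, Fintype.card_fin, Fintype.card_fin]
  rw [h3]
  exact h1

/-- density zero for the notion of density of a sequence -/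
theorem null_of {S : ℕ → Finset ℕ} {ι : Type} [Fintype ι] [DecidableEq ι] {x : ℕ → ι → ℤ}
    (hw : WS S x) (A : Set (ι → ℤ))
    (h : @Pool.Agent.N455.TX.D0 ι (Pool.Agent.N455.TX.smOf hw) A) :
    Pool.Agent.N666.TM.NullIn S {n | x n ∈ A} := by
  intro ε hε
  obtain ⟨N₀, hN₀⟩ := h ε hε
  exact ⟨N₀, fun N hN => hN₀ N hN⟩

end Pool.Agent.N680.SQ
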