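import Pool.Agent.N820.SU.Fam
import Pool.Agent.N455.TX.B8

/-!
# Families over number fields, for an abstract notion of density
-/

set_option autoImplicit false
set_option linter.unusedSectionVars false

namespace Pool.Agent.N680.SQ

open Pool.Agent.Y706 Pool.Agent.Y706.BI Pool.Agent.Y681.BI
open Pool.Agent.H936R2 Pool.Agent.H927R2.RD H294UB
open Pool.Agent.W275.UB hiding UD D0 Gen S_dens S_densp S_hit S_exu S_urel S_gen S_genT S_type
open Pool.Agent.W193.UB Pool.Agent.W277.UH Pool.Agent.W277.UG Pool.Agent.W277.UC NumberField Filter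
  Topology Pool.Agent.N820.SU

/-- the hypothesis on the family -/
def Hyp (k : Type) [Field k] (d A m : ℕ) (P Q : Polynomial (MvPolynomial (Fin m) k)) (i : Fin m) :
    Prop :=
  max P.natDegree Q.natDegree = d ∧ IsCoprime (generic P) (generic Q) ∧
  ¬ ConjAlg (others k i) ((generic P).map (algebraMap _ (AlgebraicClosure (RF k m))))
    ((generic Q).map (algebraMap _ (AlgebraicClosure (RF k m)))) d ∧
  Few ((generic P).map (algebraMap _ (AlgebraicClosure (RF k m))))
    ((generic Q).map (algebraMap _ (AlgebraicClosure (RF k m)))) d A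

/-- the member of the family at the vector `v` is good -/
def Good (k : Type) [Field k] (d B m M : ℕ) (P Q : Polynomial (MvPolynomial (Fin m) k))
    (v : Fin (m + 1) → 𝓞 k) : Prop :=
  v 0 ≠ 0 ∧ IsCoprime (special v P) (special v Q) ∧
    max (special v P).natDegree (special v Q).natDegree = d ∧
    (preperB (special v P) (special v Q) d B).encard ≤ ((M : ℕ) : ℕ∞)

theorem fam (hS : Subp.S_SUBP.{0, 0}) : ∃ N : ℕ → ℕ → ℕ → ℕ, ∀ (k : Type) [Field k]
    [NumberField k] (J : Type) [Fintype J] (ω : Module.Basis J ℤ (𝓞 k)) (d B A : ℕ), 2 ≤ d →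
    1 ≤ B → ∀ (m : ℕ) [Pool.Agent.N455.TX.Sm (Fin (m + 1) × J)]
      (P Q : Polynomial (MvPolynomial (Fin m) k)) (i : Fin m), Hyp k d A m P Q i →
      Pool.Agent.N455.TX.D0 {w : Fin (m + 1) × J → ℤ | ¬ Good k d B m (N B d A) P Q (vec ω w)} := by
  classical
  obtain ⟨N, hN⟩ := hS
  refine ⟨fun B d A => N 1 B d A, ?_⟩
  intro k _ _ J _ ω d B A hd hB m _ P Q i hyp
  obtain ⟨hmaxP, hco, hiso, hfew⟩ := hyp
  have hcz0 : CharZero (RF k m) :=
    charZero_of_injective_algebraMap (R := k) (algebraMap k _).injective
  have hinj : Function.Injective (algebraMap (MvPolynomial (Fin m) k) (RF k m)) :=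
    IsFractionRing.injective _ _
  have hmax : max (generic P).natDegree (generic Q).natDegree = d := by
    rw [generic, generic, Polynomial.natDegree_map_eq_of_injective hinj,
      Polynomial.natDegree_map_eq_of_injective hinj]
    exact hmaxP
  have hczF : CharZero (others k i) := by
    constructor
    intro a b hab
    have := congrArg (algebraMap (others k i) (RF k m)) hab
    rw [map_natCast, map_natCast] at this
    exact_mod_cast this
  obtain ⟨hfd, hfr⟩ := finrank_one_of (F := others k i) (gen_sub i)
  have h0 := hN (others k i) (RF k m)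
    (algebraMap (MvPolynomial (Fin m) k) (RF k m) (MvPolynomial.X i))
    (tr_sub i) hfd 1 B d A hfr hd (generic P) (generic Q) ⟨hco, hmax⟩ hiso hfew
  have h1 : (PB (AlgebraicClosure (RF k m)) (generic P) (generic Q) d B).encard ≤
      ((N 1 B d A : ℕ) : ℕ∞) := by
    refine le_trans (Set.encard_le_encard ?_) h0
    rintro z ⟨hz1, hz2⟩
    refine ⟨?_, ?_⟩
    · have e : mapP1 ((generic P).map (algebraMap (RF k m) (AlgebraicClosure (RF k m))))
          ((generic Q).map (algebraMap (RF k m) (AlgebraicClosure (RF k m)))) d =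
          ratP1 ((generic P).map (algebraMap (RF k m) (AlgebraicClosure (RF k m))))
          ((generic Q).map (algebraMap (RF k m) (AlgebraicClosure (RF k m)))) d := by
        funext z
        cases z <;> rfl
      rw [e]
      exact hz1
    · intro x hx
      obtain ⟨E, hE1, hE2, hE3⟩ := hz2 x hx
      have h3 : minpoly (RF k m) x = minpoly (RF k m) (⟨x, hE3⟩ : E) :=
        minpoly.algebraMap_eq (B := E) (B' := AlgebraicClosure (RF k m))
          (algebraMap E (AlgebraicClosure (RF k m))).injective ⟨x, hE3⟩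
      rw [h3]
      exact (minpoly.natDegree_le _).trans hE2
  have h2 := fewB_of_encard (by omega) hmax hco B _ h1
  obtain ⟨s, hM⟩ := monIn_of_good (by omega) hmax hco
  have hcoe : co (generic P) (generic Q) d =
      fun i => algebraMap (MvPolynomial (Fin m) k) (RF k m) (co P Q d i) := by
    rw [co_map]
    rfl
  rw [hcoe] at h2 hM
  have h3 := Pool.Agent.N455.TX.paramB ω (AlgebraicClosure k) hd (co P Q d) hM h2
  intro ε hε
  refine (h3 ε hε).mono ?_
  intro w hw hcon
  apply hw
  obtain ⟨g1, ⟨s', g2⟩, g3⟩ := hcon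
  have htp : (fun i => MvPolynomial.eval (tp ω w) (co P Q d i)) =
      co (P.map (MvPolynomial.eval (tp ω w))) (Q.map (MvPolynomial.eval (tp ω w))) d := by
    rw [co_map]
  rw [htp] at g2 g3
  set p := P.map (MvPolynomial.eval (tp ω w)) with hp
  set q := Q.map (MvPolynomial.eval (tp ω w)) with hq
  have hpd : p.natDegree ≤ d := Polynomial.natDegree_map_le.trans ((le_max_left _ _).trans hmaxP.le)
  have hqd : q.natDegree ≤ d := Polynomial.natDegree_map_le.trans ((le_max_right _ _).trans hmaxP.le)
  obtain ⟨hco', hmax'⟩ := of_monIn hpd hqd g2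
  have g4 := encard_of_fewB (by omega) hmax' hco' hB _ g3
  refine ⟨g1, hco', hmax', ?_⟩
  have hsub : preperB p q d B ⊆ PB (AlgebraicClosure k) p q d B := by
    rintro z ⟨hz1, hz2⟩
    refine ⟨hz1, ?_⟩
    intro x hx
    have hint : IsIntegral k x := (Algebra.IsAlgebraic.isAlgebraic (R := k) x).isIntegral
    refine ⟨IntermediateField.adjoin k {x}, IntermediateField.adjoin.finiteDimensional hint, ?_,
      IntermediateField.mem_adjoin_simple_self k x⟩
    rw [IntermediateField.adjoin.finrank hint]
    exact hz2 x hx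
  exact (Set.encard_le_encard hsub).trans g4

end Pool.Agent.N680.SQ
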